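import Mathlib

namespace Pool.Agent.Results.MP_9cbaed_nt.Order

open Polynomial

/-- `e` is the order of `f`: the least positive integer with `f ∣ 1 + X ^ e`. -/
def IsOrder (f : (ZMod 2)[X]) (e : ℕ) : Prop :=
  IsLeast {n : ℕ | 0 < n ∧ f ∣ 1 + X ^ n} e

/-- Counting lemma: a separable polynomial of degree `q + 1` whose roots are nonzero and have
pairwise distinct quotients cannot divide `1 + X ^ e` for `0 < e < q² + q + 1`. -/
theorem count (g : (ZMod 2)[X]) (q e : ℕ) (he : 0 < e) (hdeg : g.natDegree = q + 1)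
    (hsep : g.Separable) (hdvd : g ∣ 1 + X ^ e)
    (huniq : ∀ c y y' : AlgebraicClosure (ZMod 2), c ≠ 1 → aeval y g = 0 → aeval (c * y) g = 0 →
      aeval y' g = 0 → aeval (c * y') g = 0 → y = y') :
    q ^ 2 + q + 1 ≤ e := by
  classical
  set K := AlgebraicClosure (ZMod 2)
  haveI : CharP K 2 := charP_of_injective_algebraMap (algebraMap (ZMod 2) K).injective 2
  have hg0 : g ≠ 0 := hsep.ne_zero
  have hcard : (g.aroots K).toFinset.card = q + 1 := by
    rw [← hdeg, ← card_rootSet_eq_natDegree hsep (IsAlgClosed.splits (g.map (algebraMap _ K)))]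
    simp [rootSet_def]
  set D := (g.aroots K).toFinset with hD
  have hmem : ∀ x, x ∈ D ↔ aeval x g = 0 := by
    intro x; simp [hD, hg0]
  have hpow : ∀ x ∈ D, x ^ e = 1 := by
    intro x hx
    obtain ⟨h, hh⟩ := hdvd
    have := congrArg (aeval x) hh
    rw [map_mul, (hmem x).1 hx, zero_mul] at this
    simp only [map_add, map_one, map_pow, aeval_X] at this
    have h2 : (1 : K) + 1 = 0 := CharTwo.add_self_eq_zero 1
    linear_combination this - h2
  have hne : ∀ x ∈ D, x ≠ 0 := by
    rintro x hx rfl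
    have := hpow 0 hx
    rw [zero_pow he.ne'] at this
    exact zero_ne_one this
  have h1 : D.offDiag.card ≤ ((nthRootsFinset e (1 : K)).erase 1).card := by
    refine Finset.card_le_card_of_injOn (fun p => p.1 / p.2) ?_ ?_
    · intro p hp
      obtain ⟨h1, h2, h3⟩ := Finset.mem_offDiag.1 hp
      simp only [Finset.coe_erase, Set.mem_diff, Finset.mem_coe, Set.mem_singleton_iff]
      refine ⟨(mem_nthRootsFinset he _).2 (by rw [div_pow, hpow _ h1, hpow _ h2, div_one]), ?_⟩
      rw [div_eq_one_iff_eq (hne _ h2)]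
      exact h3
    · intro p hp p' hp' hpp
      obtain ⟨h1, h2, h3⟩ := Finset.mem_offDiag.1 hp
      obtain ⟨h1', h2', h3'⟩ := Finset.mem_offDiag.1 hp'
      have e1 : p.1 / p.2 * p.2 = p.1 := div_mul_cancel₀ _ (hne _ h2)
      have e2 : p.1 / p.2 * p'.2 = p'.1 := by
        rw [show p.1 / p.2 = p'.1 / p'.2 from hpp]; exact div_mul_cancel₀ _ (hne _ h2')
      have := huniq (p.1 / p.2) p.2 p'.2 (by rw [Ne, div_eq_one_iff_eq (hne _ h2)]; exact h3)
        ((hmem _).1 h2) (by rw [e1]; exact (hmem _).1 h1) ((hmem _).1 h2')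
        (by rw [e2]; exact (hmem _).1 h1')
      exact Prod.ext (by rw [← e1, ← e2, this]) this
  have h2 : (nthRootsFinset e (1 : K)).card ≤ e :=
    (Multiset.toFinset_card_le _).trans (card_nthRoots e 1)
  rw [Finset.offDiag_card, hcard, Finset.card_erase_of_mem (one_mem_nthRootsFinset he)] at h1
  have h3 : (q + 1) * (q + 1) - (q + 1) = q ^ 2 + q := by
    rw [show (q + 1) * (q + 1) = q ^ 2 + q + (q + 1) by ring]; simp
  omega

theorem frob_one {K : Type} [Field K] [CharP K 2] (r : ℕ) (c : K) (h : c ^ 2 ^ r = 1) : c = 1 := by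
  have : (c - 1) ^ 2 ^ r = 0 := by rw [sub_pow_char_pow, h, one_pow, sub_self]
  exact sub_eq_zero.1 (pow_eq_zero_iff (by positivity) |>.1 this)

/-- For `r ≥ 3`, both `f_{r,2}` and its reciprocal have order `4 ^ r + 2 ^ r + 1`. -/
theorem result : ∀ r : ℕ, 3 ≤ r →
    IsOrder (1 + X + X ^ 2 ^ r + X ^ (2 ^ r + 2)) (4 ^ r + 2 ^ r + 1) ∧
    IsOrder (1 + X ^ 2 + X ^ (2 ^ r + 1) + X ^ (2 ^ r + 2)) (4 ^ r + 2 ^ r + 1) := by
  intro r hr
  set K := AlgebraicClosure (ZMod 2)
  haveI : CharP K 2 := charP_of_injective_algebraMap (algebraMap (ZMod 2) K).injective 2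
  have h4 : 4 ^ r = (2 ^ r) ^ 2 := by rw [← pow_mul, mul_comm, pow_mul]; norm_num
  obtain ⟨s, hs⟩ : ∃ s, 2 ^ r = s + 1 := ⟨2 ^ r - 1, by have := Nat.one_le_two_pow (n := r); omega⟩
  have hq2 : 2 ≤ 2 ^ r := by
    calc 2 = 2 ^ 1 := rfl
      _ ≤ 2 ^ r := Nat.pow_le_pow_right (by norm_num) (by omega)
  have h2 : (2 : (ZMod 2)[X]) = 0 := CharTwo.two_eq_zero
  have h2K : (2 : K) = 0 := CharTwo.two_eq_zero
  have hq0 : ((2 ^ r : ℕ) : (ZMod 2)[X]) = 0 := by
    push_cast; rw [h2, zero_pow (by omega)]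
  have hroot : ∀ p : (ZMod 2)[X], p.eval 1 = 0 → 1 + X ∣ p := by
    intro p hp
    have := dvd_iff_isRoot.2 hp
    rwa [C_1, CharTwo.sub_eq_add, add_comm] at this
  have h11 : (1 : ZMod 2) + 1 = 0 := rfl
  rw [h4]
  constructor
  · set g : (ZMod 2)[X] := 1 + X ^ 2 ^ r + X ^ (2 ^ r + 1) with hg
    have hf : (1 + X + X ^ 2 ^ r + X ^ (2 ^ r + 2) : (ZMod 2)[X]) = g * (1 + X) := by
      rw [hg]; linear_combination (-X ^ (2 ^ r + 1)) * h2
    have hgq : g ^ 2 ^ r = 1 + X ^ (2 ^ r) ^ 2 + X ^ ((2 ^ r) ^ 2 + 2 ^ r) := by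
      rw [hg, add_pow_char_pow, add_pow_char_pow, one_pow, ← pow_mul, ← pow_mul]
      congr 2 <;> ring
    rw [hf]
    refine ⟨⟨by positivity, ?_⟩, ?_⟩
    · have : (1 + X ^ ((2 ^ r) ^ 2 + 2 ^ r + 1) : (ZMod 2)[X]) =
          g * (g ^ s + X ^ (2 ^ r) ^ 2) := by
        rw [mul_add, ← pow_succ', ← hs, hgq, hg]
        linear_combination (-X ^ (2 ^ r) ^ 2 - X ^ ((2 ^ r) ^ 2 + 2 ^ r)) * h2
      rw [this]
      refine mul_dvd_mul_left _ (hroot _ ?_)
      simp [hg, h11]
    · rintro e ⟨he, hdvd⟩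
      refine count g _ e he ?_ ?_ ((dvd_mul_right _ _).trans hdvd) ?_
      · rw [hg]; compute_degree!
        all_goals omega
      · have hd : derivative g = X ^ 2 ^ r := by
          rw [hg]
          simp only [derivative_add, derivative_one, derivative_X_pow, map_natCast, Nat.cast_add,
            Nat.cast_one, map_add, map_one, hq0]
          simp
        rw [separable_def, hd]
        exact ⟨1, -(1 + X), by rw [hg]; ring⟩
      · have aux : ∀ c y : K, aeval y g = 0 → aeval (c * y) g = 0 →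
            y * (c ^ 2 ^ r * c + 1) = 1 + c ^ 2 ^ r := by
          intro c y h1 h2
          simp only [hg, map_add, map_one, map_pow, aeval_X, pow_succ, mul_pow, map_mul] at h1 h2
          linear_combination (1 + y) * h2 - c ^ 2 ^ r * (1 + c * y) * h1 +
            (c ^ 2 ^ r * c * y - 1) * h2K
        intro c y y' hc a1 a2 a3 a4
        have b1 := aux c y a1 a2
        have b2 := aux c y' a3 a4
        by_cases h0 : c ^ 2 ^ r * c + 1 = 0
        · exfalso
          rw [h0, mul_zero] at b1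
          exact hc (frob_one r c (by linear_combination -b1 - h2K))
        · exact mul_right_cancel₀ h0 (b1.trans b2.symm)
  · set g : (ZMod 2)[X] := 1 + X + X ^ (2 ^ r + 1) with hg
    have hf : (1 + X ^ 2 + X ^ (2 ^ r + 1) + X ^ (2 ^ r + 2) : (ZMod 2)[X]) = g * (1 + X) := by
      rw [hg]; linear_combination (-X) * h2
    have hgq : g ^ 2 ^ r = 1 + X ^ 2 ^ r + X ^ ((2 ^ r) ^ 2 + 2 ^ r) := by
      rw [hg, add_pow_char_pow, add_pow_char_pow, one_pow, ← pow_mul]
      congr 2; ring
    rw [hf]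
    refine ⟨⟨by positivity, ?_⟩, ?_⟩
    · have : (1 + X ^ ((2 ^ r) ^ 2 + 2 ^ r + 1) : (ZMod 2)[X]) = g * (1 + X * g ^ s) := by
        rw [mul_add, mul_left_comm, ← pow_succ', ← hs, hgq, hg]
        linear_combination (-X - X ^ (2 ^ r + 1)) * h2
      rw [this]
      refine mul_dvd_mul_left _ (hroot _ ?_)
      simp [hg, h11]
    · rintro e ⟨he, hdvd⟩
      refine count g _ e he ?_ ?_ ((dvd_mul_right _ _).trans hdvd) ?_
      · rw [hg]; compute_degree!
        all_goals omega
      · have hd : derivative g = 1 + X ^ 2 ^ r := by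
          rw [hg]
          simp only [derivative_add, derivative_one, derivative_X_pow, map_natCast, Nat.cast_add,
            Nat.cast_one, map_add, map_one, hq0, derivative_X]
          simp
        rw [separable_def, hd]
        exact ⟨1, -X, by rw [hg]; ring⟩
      · have aux : ∀ c y : K, aeval y g = 0 → aeval (c * y) g = 0 →
            y * (c * (1 + c ^ 2 ^ r)) = 1 + c ^ 2 ^ r * c := by
          intro c y h1 h2
          simp only [hg, map_add, map_one, map_pow, aeval_X, pow_succ, mul_pow, map_mul] at h1 h2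
          linear_combination h2 - c ^ 2 ^ r * c * h1 + (c ^ 2 ^ r * c * y - 1) * h2K
        intro c y y' hc a1 a2 a3 a4
        have b1 := aux c y a1 a2
        have b2 := aux c y' a3 a4
        by_cases h0 : c * (1 + c ^ 2 ^ r) = 0
        · exfalso
          rw [h0, mul_zero] at b1
          rcases mul_eq_zero.1 h0 with h | h
          · rw [h] at b1; simp at b1
          · exact hc (frob_one r c (by linear_combination h - h2K))
        · exact mul_right_cancel₀ h0 (b1.trans b2.symm)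

end Pool.Agent.Results.MP_9cbaed_nt.Order
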